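import Pool.Agent.MDG.Stmts

set_option autoImplicit false

open Finset

namespace Pool.Agent.MDG.H60

open Classical in
theorem core {V : Type} [Fintype V] (d : V → V → ℕ) (m : ℕ) (X0 : Finset V)
    (hs : ∀ w v, d w v = d v w) (h0 : ∀ w, d w w = 0)
    (h : ∀ X ⊆ X0, 2 ≤ X.card → ∃ Y ⊆ X, Y.Nonempty ∧ Y ≠ X ∧
      ∑ w ∈ Y, ∑ v ∈ X \ Y, d w v < m + 1) :
    ∀ n : ℕ, ∀ X ⊆ X0, X.Nonempty → X.card ≤ n →
      ∑ w ∈ X, ∑ v ∈ X, d w v + 2 * m ≤ 2 * m * X.card := by
  intro n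
  induction n with
  | zero =>
    intro X _ hX hn
    have := hX.card_pos
    omega
  | succ n ih =>
    intro X hX0 hX hn
    rcases Nat.lt_or_ge X.card 2 with h2 | h2
    · have h1 : X.card = 1 := by
        have := hX.card_pos
        omega
      obtain ⟨a, rfl⟩ := Finset.card_eq_one.mp h1
      simp [h0]
    · obtain ⟨Y, hY, hYn, hne, hlt⟩ := h X hX0 h2
      have hZn : (X \ Y).Nonempty := by
        rw [Finset.sdiff_nonempty]
        intro hsub
        exact hne (Finset.Subset.antisymm hY hsub)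
      have hc : (X \ Y).card + Y.card = X.card := Finset.card_sdiff_add_card_eq_card hY
      have hYp := hYn.card_pos
      have hZp := hZn.card_pos
      have i1 := ih Y (hY.trans hX0) hYn (by omega)
      have i2 := ih (X \ Y) (Finset.sdiff_subset.trans hX0) hZn (by omega)
      have hsplit : ∀ g : V → ℕ, ∑ v ∈ X, g v = ∑ v ∈ X \ Y, g v + ∑ v ∈ Y, g v :=
        fun g => (Finset.sum_sdiff hY).symm
      have e1 : ∑ w ∈ X, ∑ v ∈ X, d w v =
          (∑ w ∈ X \ Y, ∑ v ∈ X \ Y, d w v + ∑ w ∈ X \ Y, ∑ v ∈ Y, d w v) +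
          (∑ w ∈ Y, ∑ v ∈ X \ Y, d w v + ∑ w ∈ Y, ∑ v ∈ Y, d w v) := by
        rw [hsplit, ← Finset.sum_add_distrib, ← Finset.sum_add_distrib]
        congr 1 <;> exact Finset.sum_congr rfl fun w _ => hsplit _
      have e2 : ∑ w ∈ X \ Y, ∑ v ∈ Y, d w v = ∑ w ∈ Y, ∑ v ∈ X \ Y, d w v := by
        rw [Finset.sum_comm]
        exact Finset.sum_congr rfl fun w _ => Finset.sum_congr rfl fun v _ => hs _ _
      have e3 : 2 * m * X.card = 2 * m * (X \ Y).card + 2 * m * Y.card := by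
        rw [← hc]; ring
      rw [e1, e2, e3]
      omega

theorem deg : DegStmt := by
  classical
  intro V _ d k X0 hk hs h0 h X hX0 hX
  obtain ⟨m, rfl⟩ : ∃ m, k = m + 1 := ⟨k - 1, by omega⟩
  have hc := core d m X0 hs h0 (fun X hX h2 => by
    obtain ⟨Y, a, b, c, e⟩ := h X hX h2
    refine ⟨Y, a, b, c, ?_⟩
    refine lt_of_le_of_lt (le_of_eq ?_) e
    refine Finset.sum_congr rfl fun w _ => Finset.sum_congr ?_ fun v _ => rfl
    ext v; simp) X.card X hX0 hX le_rfl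
  by_contra hcon
  push Not at hcon
  have h1 : X.card * (2 * (m + 1)) ≤ ∑ w ∈ X, ∑ v ∈ X, d w v := by
    have := Finset.card_nsmul_le_sum X (fun w => ∑ v ∈ X, d w v) (2 * (m + 1)) hcon
    simpa using this
  have hp := hX.card_pos
  nlinarith

end Pool.Agent.MDG.H60
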